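import Mathlib
import Pool.Agent.V11219.FinIn
import Pool.Agent.Y126.Glue
import Pool.Agent.H204R3.GP.Hom

/-!
# The Tate conjecture for the motives generated by an abelian variety with finite local monodromy
# with isolated ratios of eigenvalues

Let `A` be an abelian variety over a number field `F`, `V = V_ℓ(A)` the realization of `h_1(A)`, with
the action `ρ` of the Galois group `Γ`, `χ` the cyclotomic character, `ω` the Weil pairing of a
polarization, `K` the algebraic closure of `ℚ_ℓ` and `X = K ⊗ V`. By the theorem of Faltings `X` is the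
sum of strongly irreducible subspaces `E i` (minimal nonzero subspaces stable under a subgroup of
finite index of `Γ`); if `End(A) = ℤ` over the algebraic closure there is just one, `E = X`.

Hypothesis (`HasFinitePlaces`). For each `i` there is an element `γ` of `Γ` of finite order on `X`,
that maps every `E j` to itself (a generator of the image of the tame inertia group at a place of
potentially good reduction), such that the set of the eigenvalues of `γ` on `E i` is the union of two
nonempty parts, and for `a` in the first and `b` in the second part: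

* `a` or `b` is a simple eigenvalue of `γ` on `E i`;
* `b / a` is the quotient of no other pair of eigenvalues of `γ` on `E i`; or: `E i` is not isotropic
  for `ω`, the parts are stable under the duality `a ↦ χ(γ) / a`, and `b / a` is the quotient of no
  other pair but the dual one;
* geometric progressions of three eigenvalues of `γ` on some `E j` with quotient `b / a` exist only if
  `E j` is not isotropic for `ω`; they are self-dual with simple outer terms.

If `E i` is not self-dual then moreover the eigenvalues of `γ` on the `E j` which are not isomorphic to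
`E i` are not proportional to those on `E i`. Different `i` can use different places, and `A` may
have factors of all types I, II, IV at the same time. There is no condition on the dimensions, the
orders of the inertia groups or the multiplicities of the other eigenvalues.

Theorem. All Tate classes on all powers of `A` are linear combinations of products of Tate classes of
degree two and of Weil classes (the determinants of families of strongly irreducible subspaces that
are never dual to each other). If there are no Weil families, for instance if no `E i` is isotropic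
(types I and II), then all homomorphisms `V ^ {⊗ s} (c) → V ^ {⊗ t} (d)` which commute with a subgroup
of finite index of `Γ` are linear combinations of products of Tate classes of degree two; by the
theorem of Faltings they are then realizations of morphisms of motives, and the Tate conjecture holds
for all pure motives in the tensor category generated by `h_1(A)`.

Example 1. `End(A) = ℤ` and `A` is the Jacobian of a curve of genus `g` which has at ONE place `v` a
reduction with just one singular point, of type `y ^ 2 = x ^ (2 k + 1) + t`, `k < g` arbitrary, with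
`v(t)` prime to `2 (2 k + 1)` and `v` prime to `2 (2 k + 1) ℓ`. The eigenvalues of `γ` are `1`, with
multiplicity `2 g - 2 k`, and the simple eigenvalues `- z ^ j`, `0 < j < 2 k + 1`, where `z` is a root
of unity of order `2 k + 1`; the first part is `{1}`. (For `k = 1` these are the symplectic
bireflections of order six.) So the Tate conjecture holds for the motives generated by this
Jacobian. In general the unipotent rank of the reduction can be large, and `γ` is not a bireflection.

Example 2. `A` is the Jacobian of `y ^ p = f(x)`, `p` an odd prime, where at ONE place `v`, prime to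
`2 p ℓ`, the polynomial `f` has one double root and no other multiple roots, and the discriminant of `f` has
valuation one. On the `p - 1` eigenspaces `E j` of the automorphism of order `p`, which we suppose to be
strongly irreducible of dimension at least three, the element `γ` is a complex reflection with the
eigenvalue `- z ^ j`, so that all conditions hold: all Tate classes on all powers come from
degree two and Weil classes.

The proof: the Lie algebra `L` of the operators on `X` that kill all Tate tensors is stable under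
conjugation by `γ`; the components of its elements for the eigenvalue `b / a` of the conjugation are
of rank one or two on `E i`, and of square zero; one of them is not zero, since otherwise the two
parts would be separated by `L`, against the strong irreducibility. The rest is the theory of Lie
algebras generated by such elements and the first fundamental theorem of invariant theory.
-/

set_option autoImplicit false

namespace Pool.Agent.Results.MP_3703a7_ag.FiniteInertiaRatios

open Module TensorProduct Pool.Agent.Y126.Notions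

noncomputable section

section conditions

variable {K X Γ : Type} [Field K] [AddCommGroup X] [Module K X] [Group Γ]

/-- The space of the eigenvectors of `γ` in `U` for the eigenvalue `a`. -/
def eigenvectors (R : Representation K Γ X) (γ : Γ) (U : Submodule K X) (a : K) :
    Submodule K X :=
  U ⊓ Module.End.eigenspace (R γ) a

/-- The form `ω` is not zero on `U`. -/
def IsNotIsotropic (ω : X →ₗ[K] X →ₗ[K] K) (U : Submodule K X) : Prop :=
  ∃ u ∈ U, ∃ v ∈ U, ω u v ≠ 0

/-- Geometric progressions `a`, `a q`, `a q ^ 2` of eigenvalues of `γ` on `U` exist only if `ω` is not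
zero on `U`; they satisfy `a (a q ^ 2) = χ(γ)`, and `a` is a simple eigenvalue. -/
def ProgressionsSelfDual (R : Representation K Γ X) (χ : Γ →* K) (ω : X →ₗ[K] X →ₗ[K] K) (γ : Γ)
    (U : Submodule K X) (q : K) : Prop :=
  ∀ a, eigenvectors R γ U a ≠ ⊥ → eigenvectors R γ U (a * q) ≠ ⊥ →
    eigenvectors R γ U (a * q * q) ≠ ⊥ →
    IsNotIsotropic ω U ∧ finrank K (eigenvectors R γ U a) = 1 ∧ a * (a * q * q) = χ γ

/-- The eigenvalues of `γ` on `E i` are divided into two nonempty sets, `A` and its complement, such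
that for `a` in `A` and `b` in the complement `a` or `b` is simple, `b / a` is the quotient of no
other pair of eigenvalues on `E i`, and progressions with quotient `b / a` are self-dual. -/
def SplitsIsolated (R : Representation K Γ X) (χ : Γ →* K) (ω : X →ₗ[K] X →ₗ[K] K) {I : Type}
    (E : I → Submodule K X) (γ : Γ) (i : I) : Prop :=
  ∃ A : Set K, (∃ a ∈ A, eigenvectors R γ (E i) a ≠ ⊥) ∧
    (∃ b ∉ A, eigenvectors R γ (E i) b ≠ ⊥) ∧
    ∀ a ∈ A, ∀ b ∉ A, eigenvectors R γ (E i) a ≠ ⊥ → eigenvectors R γ (E i) b ≠ ⊥ →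
      (finrank K (eigenvectors R γ (E i) a) = 1 ∨ finrank K (eigenvectors R γ (E i) b) = 1) ∧
      (∀ a', eigenvectors R γ (E i) a' ≠ ⊥ → eigenvectors R γ (E i) (a' * (b * a⁻¹)) ≠ ⊥ →
        a' = a) ∧
      ∀ j, ProgressionsSelfDual R χ ω γ (E j) (b * a⁻¹)

/-- `E i` is not isotropic, the eigenvalues of `γ` on `E i` are divided into two nonempty sets, `A` and
its complement, both stable under the duality `a ↦ χ(γ) / a`, such that for `a` in `A` and `b` in the
complement `a` or `b` is simple, `b / a` is the quotient of no other pair of eigenvalues on `E i`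
except the dual pair, and progressions with quotient `b / a` are self-dual. -/
def SplitsIsolatedDual (R : Representation K Γ X) (χ : Γ →* K) (ω : X →ₗ[K] X →ₗ[K] K) {I : Type}
    (E : I → Submodule K X) (γ : Γ) (i : I) : Prop :=
  IsNotIsotropic ω (E i) ∧
  ∃ A : Set K, (∃ a ∈ A, eigenvectors R γ (E i) a ≠ ⊥) ∧
    (∃ b ∉ A, eigenvectors R γ (E i) b ≠ ⊥) ∧
    (∀ a, eigenvectors R γ (E i) a ≠ ⊥ → (a ∈ A ↔ χ γ * a⁻¹ ∈ A)) ∧
    ∀ a ∈ A, ∀ b ∉ A, eigenvectors R γ (E i) a ≠ ⊥ → eigenvectors R γ (E i) b ≠ ⊥ →
      (finrank K (eigenvectors R γ (E i) a) = 1 ∨ finrank K (eigenvectors R γ (E i) b) = 1) ∧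
      (∀ a', eigenvectors R γ (E i) a' ≠ ⊥ → eigenvectors R γ (E i) (a' * (b * a⁻¹)) ≠ ⊥ →
        a' = a ∨ a' * b = χ γ) ∧
      ∀ j, ProgressionsSelfDual R χ ω γ (E j) (b * a⁻¹)

/-- For the `E j` which are not isomorphic to `E i` (over a subgroup of finite index) the eigenvalues
of `γ` on `E j`, with multiplicities, are not the products of those on `E i` with a number `c`. -/
def Separates (R : Representation K Γ X) {I : Type} (E : I → Submodule K X) (γ : Γ) (i : I) :
    Prop :=
  ∀ j, ¬HasTwistedMap R (fun _ => 1) (E i) (E j) → ∀ c : K, c ≠ 0 → ∃ a : K,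
    finrank K (eigenvectors R γ (E i) a) ≠ finrank K (eigenvectors R γ (E j) (c * a))

/-- For each `i` there is an element `γ` of finite order which maps all `E j` to themselves and whose
eigenvalues on `E i` split in an isolated way; if `E i` is not self-dual they separate `E i` from the
`E j` which are not isomorphic to it. -/
def HasFinitePlaces (R : Representation K Γ X) (χ : Γ →* K) (ω : X →ₗ[K] X →ₗ[K] K) {I : Type}
    (E : I → Submodule K X) : Prop :=
  ∀ i, ∃ γ : Γ, (∃ k : ℕ, 0 < k ∧ R γ ^ k = 1) ∧ (∀ j, ∀ u ∈ E j, R γ u ∈ E j) ∧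
    (SplitsIsolated R χ ω E γ i ∨ SplitsIsolatedDual R χ ω E γ i) ∧
    (¬AreDual R χ (E i) (E i) → Separates R E γ i)

/-- For each `i` there is a diagonalizable element (a Frobenius element) with two eigenvectors in
`E i` such that the quotient of the eigenvalues is not a root of unity. (This is automatic for the
Galois representation, as otherwise the Lie algebra of the image would act on `E i` through
scalars.) -/
def HasFrobeniusElements (R : Representation K Γ X) {I : Type} (E : I → Submodule K X) : Prop :=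
  ∀ i, ∃ (F : Γ) (b : Basis (Fin (finrank K X)) K X), (∀ k, ∃ a : K, R F (b k) = a • b k) ∧
    ∃ u ∈ E i, ∃ v ∈ E i, u ≠ 0 ∧ v ≠ 0 ∧ ∃ s t : K, R F u = s • u ∧ R F v = t • v ∧
      ∀ k : ℕ, 0 < k → s ^ k ≠ t ^ k

end conditions

open Pool.Agent.H204R3.SP Pool.Agent.H204R3.GP Pool.Agent.W522.U Pool.Agent.TH118.WC

theorem result (ℓ : ℕ) [Fact ℓ.Prime] {V Γ : Type} [AddCommGroup V] [Module ℚ_[ℓ] V]
    [FiniteDimensional ℚ_[ℓ] V] [Group Γ] (ρ : Representation ℚ_[ℓ] Γ V) (χ : Γ →* ℚ_[ℓ])
    (ω : V →ₗ[ℚ_[ℓ]] V →ₗ[ℚ_[ℓ]] ℚ_[ℓ]) (halt : ∀ v, ω v v = 0)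
    (hnondeg : ∀ u, (∀ v, ω v u = 0) → u = 0)
    (hω : ∀ s u v, ω (ρ s u) (ρ s v) = χ s * ω u v)
    -- the theorem of Faltings
    (hsemisimple : PotentiallySemisimple ρ)
    -- the decomposition
    {I : Type} (E : I → Submodule (AlgebraicClosure ℚ_[ℓ]) (AlgebraicClosure ℚ_[ℓ] ⊗[ℚ_[ℓ]] V))
    (hE : ∀ i, StronglyIrreducible (extend (AlgebraicClosure ℚ_[ℓ]) ρ) (E i))
    (hsum : ⨆ i, E i = ⊤)
    (hfrob : HasFrobeniusElements (extend (AlgebraicClosure ℚ_[ℓ]) ρ) E)
    -- the places
    (hplaces : HasFinitePlaces (extend (AlgebraicClosure ℚ_[ℓ]) ρ)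
      ((algebraMap ℚ_[ℓ] (AlgebraicClosure ℚ_[ℓ]) : ℚ_[ℓ] →* _).comp χ)
      (LinearMap.BilinForm.baseChange (AlgebraicClosure ℚ_[ℓ]) ω) E) :
    GeneratedByWeilClasses (AlgebraicClosure ℚ_[ℓ]) ρ χ ω ∧
    ((∀ (Q : Type) [Fintype Q] [Nonempty Q]
      (L : Q → Submodule (AlgebraicClosure ℚ_[ℓ]) (AlgebraicClosure ℚ_[ℓ] ⊗[ℚ_[ℓ]] V)),
      ¬Pool.Agent.Y126.Notions.IsWeilFamily (extend (AlgebraicClosure ℚ_[ℓ]) ρ)
        ((algebraMap ℚ_[ℓ] (AlgebraicClosure ℚ_[ℓ]) : ℚ_[ℓ] →* _).comp χ) L) →
      GeneratedInDegreeTwo ρ χ ∧ HomsGeneratedInDegreeTwo ρ χ ω) ∧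
    ((∀ i, IsNotIsotropic (LinearMap.BilinForm.baseChange (AlgebraicClosure ℚ_[ℓ]) ω) (E i)) →
      GeneratedInDegreeTwo ρ χ ∧ HomsGeneratedInDegreeTwo ρ χ ω) := by
  have hl1 : ∀ u, (∀ v, bcb (AlgebraicClosure ℚ_[ℓ]) ω u v = 0) → u = 0 := fun u hu =>
    bcb_nondeg_left ω hnondeg (left_nondeg ω halt hnondeg) u hu
  have hinv := bcb_inv (Ω := AlgebraicClosure ℚ_[ℓ]) ρ χ ω hω
  have hpr : HasProj (bcr ρ (AlgebraicClosure ℚ_[ℓ])) := hasProj_bcr ρ _ hsemisimple
  have halt2 : ∀ v, bcb (AlgebraicClosure ℚ_[ℓ]) ω v v = 0 :=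
    Pool.Agent.TH118.CU.bcb_alt (Ω := AlgebraicClosure ℚ_[ℓ]) ω halt
  have hSI : Pool.Agent.TH118.IS.SumOfSI (bcr ρ (AlgebraicClosure ℚ_[ℓ])) E := ⟨hE, hsum⟩
  have hpl' : Pool.Agent.V11219.FinIn.HasFinitePlaces (bcr ρ (AlgebraicClosure ℚ_[ℓ]))
      (bcc χ (AlgebraicClosure ℚ_[ℓ])) (bcb (AlgebraicClosure ℚ_[ℓ]) ω) E := hplaces
  have core : ∀ (m : ℕ) (φ : MultilinearMap (AlgebraicClosure ℚ_[ℓ])
      (fun _ : Fin m × Fin 2 => AlgebraicClosure ℚ_[ℓ] ⊗[ℚ_[ℓ]] V) (AlgebraicClosure ℚ_[ℓ])),
      IsTate (bcr ρ (AlgebraicClosure ℚ_[ℓ])) (bcc χ (AlgebraicClosure ℚ_[ℓ])) m φ →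
      φ ∈ Submodule.span _ (DetProd (bcr ρ (AlgebraicClosure ℚ_[ℓ]))
        (bcc χ (AlgebraicClosure ℚ_[ℓ])) m) := fun m φ hφ =>
    Pool.Agent.V11219.FinIn.det_of_places (R := bcr ρ (AlgebraicClosure ℚ_[ℓ]))
      (χ := bcc χ (AlgebraicClosure ℚ_[ℓ])) (bcb (AlgebraicClosure ℚ_[ℓ]) ω) halt2 hl1 hinv hpr hSI
      hpl' hfrob φ hφ
  have two : (∀ (m : ℕ) (φ : MultilinearMap (AlgebraicClosure ℚ_[ℓ])
      (fun _ : Fin m × Fin 2 => AlgebraicClosure ℚ_[ℓ] ⊗[ℚ_[ℓ]] V) (AlgebraicClosure ℚ_[ℓ])),
      IsTate (bcr ρ (AlgebraicClosure ℚ_[ℓ])) (bcc χ (AlgebraicClosure ℚ_[ℓ])) m φ →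
      φ ∈ Submodule.span (AlgebraicClosure ℚ_[ℓ]) (PT (bcr ρ (AlgebraicClosure ℚ_[ℓ]))
        (bcc χ (AlgebraicClosure ℚ_[ℓ])) m)) →
      GeneratedInDegreeTwo ρ χ ∧ HomsGeneratedInDegreeTwo ρ χ ω := by
    intro H
    refine ⟨?_, ?_⟩
    · have h := generated_of_ext ρ χ (AlgebraicClosure ℚ_[ℓ]) H
      intro n m f hf
      refine Submodule.span_mono ?_ (h n m f hf)
      rintro g ⟨B, hB, hg⟩
      refine ⟨B, fun l => ?_, hg⟩
      obtain ⟨Δ, hΔ, h1⟩ := hB l
      refine ⟨Δ, hΔ, fun s hs v => ?_⟩
      have h2 := h1 s hs v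
      rwa [pow_one] at h2
    · exact homs_generated ρ χ ω halt hnondeg hω fun m φ hφ =>
        tate_descent_any (Ω := AlgebraicClosure ℚ_[ℓ]) (Module.finBasis ℚ_[ℓ] V) ρ χ (H m) φ hφ
  refine ⟨fun n m f hf => ?_, fun hno => ?_, fun hni => ?_⟩
  · refine Submodule.span_mono (Set.image_mono ?_)
      (classes_of_tensors (AlgebraicClosure ℚ_[ℓ]) ρ χ (bcb _ ω) hl1 hinv (core m) f hf)
    rintro g ⟨P, Q, hP, hQ, d, L, b, e, B, hB, hB0, ⟨hL1, hL2, hL3⟩, rfl⟩
    exact ⟨P, Q, hP, hQ, d, L, b, e, B, fun p => ⟨hB p, hB0 p⟩, ⟨hL1, hL2, hL3⟩, rfl⟩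
  · exact two fun m φ hφ => Pool.Agent.Y126.Toric.pt_of_noWeil hno (core m φ hφ)
  · exact two fun m φ hφ => Pool.Agent.TH118.CU.detProd_pt
      (Pool.Agent.V11219.FinIn.selfDual_of (R := bcr ρ (AlgebraicClosure ℚ_[ℓ]))
        (χ := bcc χ (AlgebraicClosure ℚ_[ℓ])) (bcb (AlgebraicClosure ℚ_[ℓ]) ω) halt2 hinv hpr hSI
        hni) φ (core m φ hφ)

end

end Pool.Agent.Results.MP_3703a7_ag.FiniteInertiaRatios
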