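import Mathlib
import Pool.Agent.V1141.OF.GL4

/-!
# Homomorphisms between tensor powers of a motive with coefficients, from one Frobenius element

Let `M` be a pure motive over a number field `F`, of any weight and without any polarization or
self-duality, with an action of a number field `E` (a motive with coefficients in `E`), for example a
summand of the cohomology `H^i(X)`, `i` even or odd, on which a group of automorphisms acts through a
given character. Let `V` be its `λ`-adic realization, with coefficients extended to an algebraic
closure `k` of `ℚ_ℓ`; the Galois group `Γ` acts on `V` by `ρ`, and `χ` is the cyclotomic
character. Suppose that for ONE element `γ` of `Γ`, for instance the Frobenius element at one place of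
good reduction, the eigenvalues `α i` of `γ` on `V` and the number `χ γ` are multiplicatively
independent.

Then all homomorphisms `V ^ {⊗ s} → V ^ {⊗ t} (c)`, `c` any integer, which commute with a subgroup of
finite index of the Galois group, are linear combinations of the maps
`x_1 ⊗ ... ⊗ x_s ↦ P_1 (x_{σ 1}) ⊗ ... ⊗ P_t (x_{σ t})`, with a permutation `σ` and endomorphisms `P_j` of `V`
that commute with a subgroup of finite index of the Galois group (in particular they are
zero if `s ≠ t` or if `c ≠ 0`). So the Tate conjecture for the homomorphisms between all tensor powers
of `M`, for all finite extensions of `F`, is reduced to the endomorphisms of `M`; for example if the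
only endomorphisms of `V` commuting with a subgroup of finite index are the scalars, then
`End (V ^ {⊗ s})` is generated by the permutations of the factors, which are algebraic.

It is NOT assumed that the representation is semisimple. (If it is, the connected monodromy group is
a group of rank `dim V` in the general linear group, a Levi subgroup. In general a group containing
a maximal torus need not be reductive, for example it can be a Borel subgroup. The proof uses that
a tensor of weight zero which is killed by a root vector is killed by the opposite root vector, so
that the Lie algebra of all endomorphisms killing the Tate tensors is always reductive.)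
-/

set_option autoImplicit false

namespace Pool.Agent.Results.MP_3703a7_ag.IndependentEigenvalues

open Polynomial Pool.Agent.V1141.OF

theorem result {k : Type} [Field k] [CharZero k] {V : Type} [AddCommGroup V] [Module k V]
    [FiniteDimensional k V] {Γ : Type} [Group Γ] (ρ : Representation k Γ V) (χ : Γ →* k)
    -- one element with independent eigenvalues
    (γ : Γ) {n : ℕ} (α : Fin n → k) (hγ : (ρ γ).charpoly = ∏ i, (X - C (α i)))
    (hind : ∀ (m : Fin n → ℤ) (c : ℤ), ∏ i, α i ^ m i = χ γ ^ c → m = 0 ∧ c = 0) :
    HomsGeneratedByEndos ρ χ :=
  homs_of_independent ρ χ γ α hγ hind

end Pool.Agent.Results.MP_3703a7_ag.IndependentEigenvalues
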