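import Pool.Agent.V1151.TM.Main

/-!
# The Tate conjecture for products with powers of varieties with one element of local monodromy, of
several kinds, no good reduction of the other factors

Let `W` be a Weil cohomology theory with algebraically closed coefficients (étale cohomology with
coefficients in the closure of `ℚ_p`) on a class of smooth proper varieties over the algebraic closure
of a number field `F`, with an action of a group `Γ` (the Galois group of `F`) on the cohomology of the
varieties under consideration.

Let `X_i` be varieties of odd dimension for which numerical and homological equivalence coincide,
whose transcendental cohomology `T_i` (the orthogonal complement of all algebraic classes) is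
concentrated in the middle degree and irreducible under all subgroups of finite index of `Γ`. For
every `i` let there be ONE element `g_i` of `Γ`, acting trivially on the Tate twists (an element of an
inertia group), of one of the following kinds, where different `i` may be of different kinds:

* (*multiplicative*) `g_i` acts trivially on the cohomology of `Z` and of the other `X_j`, and
  `(g_i - 1) ^ 2 = 0` on `T_i`, where the rank of `g_i - 1` is ARBITRARY, but the rank and the
  multiplicities of the nonzero eigenvalues of the operators `(g_i - 1) (g' - 1)` on `T_i`, for the
  elements `g'` with the same properties (for instance the conjugates of `g_i`), have no common
  prime factor, or one of them is two. Example: `X_i` has any number of ordinary double points at a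
  place `v_i`, where `Z` and the other `X_j` have good reduction;
* (*additive, isolated*) `g_i` acts on `T_i` with finite order and its eigenvalues on `T_i` are isolated
  with respect to a group of numbers which contains all eigenvalues of `g_i` on the cohomology of
  `Z` and of the other `X_j`. Example: the model of `X_i` at `v_i` is smooth except for one
  singularity `x_0 ^ 2 + ⋯ + x_{n-1} ^ 2 + x_n ^ (2m+1) = t`, `2 m < dim T_i`, in residue
  characteristic prime to `2 (2m + 1)`, and `Z` and the other `X_j` have at `v_i` semistable
  reduction, or acquire it over an extension of degree prime to `2m + 1`.

In the case of finite order let some element of `Γ` (a Frobenius element) have two eigenvalues on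
`T_i` whose quotient is not a root of unity; this is automatic for Galois representations.

Then the Tate conjecture, for cycles of all codimensions, holds for the product of `Z` with arbitrary
powers of the `X_i` if and only if it holds for `Z`: so all homomorphisms between the Galois
representations of the pure motives which are generated by the `X_i` and by direct factors of `Z`
come from homomorphisms of motives, as soon as this holds for the classes on `Z`.
-/

universe u

namespace Pool.Agent.Results.MP_3703a7_ag.LocalMonodromyProducts

open Pool.Agent.H914 Pool.Agent.H281R3.HT Pool.Agent.TH125.Gal Pool.Agent.V1151.TM

/-- **The Tate conjecture for products with powers of varieties with one element of local monodromy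
of several kinds.** -/
theorem result {k : Type u} [Field k] {𝒱 : VarClass k} {ops : CycleOps 𝒱}
    (W : WeilCohomology.{u, 0} ops) [IsAlgClosed W.K] {Γ : Type} [Group Γ] (χ : Γ →* W.Kˣ)
    {ι : Type} (X : ι → GVar W Γ) (Z : GVar W Γ) (h : LocalFamily χ X Z) (S : Set ι)
    (Y : GVar W Γ) (hY : GTower X Z S Y) : TateConjecture χ Y ↔ TateConjecture χ Z :=
  tate_local h hY

end Pool.Agent.Results.MP_3703a7_ag.LocalMonodromyProducts
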