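import Pool.Agent.V11219.SstOver

/-!
# The Tate conjecture for motives of products: comparison of toric ranks at common places

Let `W` be a Weil cohomology theory with algebraically closed coefficients on a class of smooth
proper varieties over a field `k`, and let `Γ` be a group which acts on the cohomology of the varieties
`X_i`, `Y_b` and `Z` with the formal properties of a Galois action (the example: `p`-adic cohomology of
varieties over a number field `F` and the group `G_F`; `χ` is the action on the Tate twists).

All varieties `X_i` (`i` in a finite set) and `Y_b` (`b` in a finite set) have odd dimension, numerical
and homological equivalence coincide for them (for example curves, hypersurfaces, complete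
intersections), and their transcendental cohomology `T(X_i)`, `T(Y_b)` (the orthogonal complement of the
algebraic classes) is concentrated in the middle degree; the `Y_b` have the same dimension, the
`T(X_i)` are irreducible under all subgroups of finite index and no two of them are isomorphic up to
scalars. **Nothing else is assumed on the `Y_b`**: they may be arbitrary curves, for instance with
arbitrary endomorphisms of the Jacobians, with simple or not simple Jacobians, and also several copies
of the same curve up to isogeny. Nothing at all is assumed on `Z`.

Let `N` be the set of the `g ∈ Γ` with `χ(g) = 1` which act trivially on the cohomology of `Z` and with
`(g - 1) ^ 2 = 0` on all `T(X_j)` and all `T(Y_b)` (inertia at the places `v` at which `Z` has good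
reduction and the curves `X_j`, `Y_b` have stable reduction; **all** of them may have bad reduction at
`v`). Assume for every `i`:

* **(small defects)** some `g ∈ N` has defects on `T(X_i)` without a common prime factor, or the defect
  two; here the defects of `g` are the rank of `g - 1` on `T(X_i)` and the multiplicities of the nonzero
  eigenvalues of `(g - 1) (g' - 1)` on `T(X_i)`, for `g' ∈ N`. (Or: the conjugates of some `g ∈ N` act
  irreducibly on `T(X_i)` and the defects of all elements of `N` have no common prime factor.)
* **(larger toric rank)** for some `g ∈ N` the rank of `g - 1` on `T(X_i)` (for curves: the toric rank of
  the reduction of `X_i` at `v`) is larger than the sum of the ranks of `g - 1` on the `T(Y_b)`.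

Let `Z₁` be a product of `Z` with arbitrary powers of the `Y_b`, and `T` a product of `Z₁` with arbitrary
powers of the `X_i`. Then **the Tate conjecture for `T` (all classes which are semi-invariant under a
subgroup of finite index are combinations of cycle classes, in all codimensions) holds if and only if
it holds for `Z₁`**. So the Galois equivariant maps between the realizations of motives `M`, `M'` which
are cut out by algebraic projectors in the cohomology of products of powers of the `X_i`, `Y_b` and of
`Z` are all given by correspondences, as soon as this is true for the products of powers of the `Y_b` and
`Z`.

In the known results of this kind (Serre, Hall, Zarhin: rank one) and in the results of this pool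
(`LocalMonodromyProducts`, `SmallRankProducts`, `SeveralNodesProducts`) one needs for each `i` an element
which acts trivially on all the other factors, a place at which only `X_i` has bad reduction. Here all
factors may degenerate at the same places (even at one place only), and the factors `Y_b` are compared
with `X_i` by the rank only.

Proof. Let `𝔤` be the Lie algebra of the tuples of operators on the `T(X_j)` and on the sum of the
`T(Y_b)` which respect the forms and kill all the multilinear maps to the cohomology of `Z`, twisted by
characters which are trivial on the kernel of `χ`, that are equivariant under a subgroup of finite index.
It contains the tuples `g - 1`, `g ∈ N`. By the theory of extremal elements (see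
`MP_90d181_ag.SmallerToricRank`, for the Lie algebra of one representation) the projections to the
`T(X_j)` are the whole symplectic Lie algebras, by Goursat's lemma the projection to their sum is the
product, and the comparison of ranks shows that `𝔤` contains the symplectic Lie algebra of each
`T(X_i)` (an ideal of the Lie algebra on the sum of the `T(Y_b)` which is isomorphic to it would give
elements of larger rank). The multilinear map of a class on a product `Y_b ^ (n+1) × A`, and its
values at the algebraic classes of `Y_b`, reduce the maps from `T(X_i)` to the cohomology of this product
to maps from `T(X_i)` and `T(Y_b)` to the cohomology of `A`; by induction the symplectic Lie algebra of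
`T(X_i)` kills all equivariant maps to the cohomology of `Z₁` and of its products with powers of the
other `X_j`; by the first fundamental theorem the Tate classes are combinations of products of algebraic
classes on the factors `X_i`, of the transcendental parts of the diagonals of pairs of factors and of
Tate classes of the remaining factor.
-/

universe u

namespace Pool.Agent.Results.MP_3703a7_ag.SemistableProducts

open Pool.Agent.H914 Pool.Agent.H281R3.HT Pool.Agent.TH125.Gal Pool.Agent.V11219.Sst

/-- **The Tate conjecture for products: comparison of ranks at common places of degeneration.** -/
theorem result {k : Type u} [Field k] {𝒱 : VarClass k} {ops : CycleOps 𝒱}
    (W : WeilCohomology.{u, 0} ops) [IsAlgClosed W.K] {Γ : Type} [Group Γ] (χ : CharOf W Γ)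
    {ι β : Type} [Finite ι] [Fintype β] (X : ι → GVar W Γ) (Y : β → GVar W Γ) (d : ℕ)
    (Z : GVar W Γ) (h : SemistableOver χ X Y d Z) (S' : Set β) (Z₁ : GVar W Γ)
    (hZ : GTower Y Z S' Z₁) (S : Set ι) (T : GVar W Γ) (hT : GTower X Z₁ S T) :
    TateConjecture χ T ↔ TateConjecture χ Z₁ := by
  classical
  have := Fintype.ofFinite ι
  exact (tate_over h hZ hT).1

end Pool.Agent.Results.MP_3703a7_ag.SemistableProducts
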